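import Pool.Agent.Helper78_NDM.Stmts

/-! # NDM, module DAT (helper13): formulas for all nonempty sets of forms, by induction. -/

set_option autoImplicit false
set_option linter.unusedVariables false
set_option linter.unusedSectionVars false

namespace Pool.Agent.NDM.H13

open PowerSeries Finset Pool.Agent.Helper6_Mono Pool.Agent.Helper32_OMP Pool.Agent.NDM

section

variable {k : Type} [Field k] {σ ι : Type} [Fintype σ] {R : Type 1} [CommRing R] {L0 : Rˣ}

theorem steps_mono {S T : Set ℚ} (h : S ⊆ T) : steps S ⊆ steps T :=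
  fun p hp => ⟨hp.1, h hp.2⟩

/-- enlarging the set of slopes -/
def Dat.up {mF : ℕ} {S T : Set ℚ} (h : S ⊆ T) (D : Dat k L0 mF S) : Dat k L0 mF T where
  Λ := D.Λ
  fin := D.fin
  P := D.P
  ft := D.ft
  g := D.g
  e := D.e
  epos := D.epos
  edvd := D.edvd
  c := D.c
  rp := fun a => (D.rp a).mono (steps_mono h)

theorem HasDat.mono [DecidableEq ι] {L : ι → σ → k} {m : ι → ℕ} {F : Finset ι} {S T : Set ℚ}
    (h : S ⊆ T) (H : HasDat L0 L m F S) : HasDat L0 L m F T := by
  obtain ⟨D, hD⟩ := H
  refine ⟨Dat.up h D, ?_⟩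
  intro β wβ χ Y hY wu u M ω θ hw
  rw [hD β wβ χ Y hY wu u M ω θ hw]
  rfl

theorem spn_mono {L : ι → σ → k} {G W : Finset ι} (h : W ⊆ G) : spn L W ≤ spn L G :=
  Submodule.span_mono (Set.image_mono (by exact_mod_cast h))

theorem ClIn.trans {L : ι → σ → k} {F G W : Finset ι} (h1 : ClIn L F G) (h2 : ClIn L G W) :
    ClIn L F W :=
  ⟨h2.1.trans h1.1, fun i hi hs => h2.2 i (h1.2 i hi (spn_mono h2.1 hs)) hs⟩

theorem ClIn.self (L : ι → σ → k) (F : Finset ι) : ClIn L F F :=
  ⟨Subset.refl _, fun _ h _ => h⟩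

theorem mem_spn {L : ι → σ → k} {F : Finset ι} {i : ι} (h : i ∈ F) : L i ∈ spn L F :=
  Submodule.subset_span ⟨i, by exact_mod_cast h, rfl⟩

/-- the slopes of the connected closed subsets -/
def SL (L : ι → σ → k) (m : ι → ℕ) (F : Finset ι) : Set ℚ :=
  {q | ∃ W : Finset ι, W.Nonempty ∧ ClIn L F W ∧
      ConnS L W ∧ q = (rk L W : ℚ) / ((∑ i ∈ W, m i : ℕ) : ℚ)}

theorem SL_mono {L : ι → σ → k} {m : ι → ℕ} {F G : Finset ι} (h : ClIn L F G) :
    SL L m G ⊆ SL L m F := by
  rintro q ⟨W, h1, h2, h3, h4⟩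
  exact ⟨W, h1, ClIn.trans h h2, h3, h4⟩

theorem cl_of_indep {L : ι → σ → k} {F A B : Finset ι} (hF : ∀ i, i ∈ F ↔ i ∈ A ∨ i ∈ B)
    (h0 : ∀ i ∈ F, L i ≠ 0) (hd : Disjoint (spn L A) (spn L B)) : ClIn L F A := by
  refine ⟨fun i hi => (hF i).2 (Or.inl hi), fun i hi hs => ?_⟩
  rcases (hF i).1 hi with h | h
  · exact h
  · exfalso
    exact h0 i hi (Submodule.disjoint_def.1 hd (L i) hs (mem_spn h))

end

theorem dat (h2 : Dn2Stmt) (hp : PrdStmt) : DatStmt := by
  intro k _ σ ι _ _ R _ L0 L m hm
  have key : ∀ n : ℕ, ∀ F : Finset ι, F.card = n → F.Nonempty → (∀ i ∈ F, L i ≠ 0) →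
      HasDat L0 L m F (SL L m F) := by
    intro n
    induction n using Nat.strong_induction_on with
    | _ n ih =>
      intro F hn hF h0
      by_cases hc : ConnS L F
      · -- connected
        have hG : ∀ G, ClIn L F G → G.Nonempty → G ≠ F → HasDat L0 L m G (SL L m F) := by
          intro G hG hne hneq
          have hlt : G.card < n := by
            rw [← hn]
            exact Finset.card_lt_card (lt_of_le_of_ne hG.1 hneq)
          exact HasDat.mono (SL_mono hG) (ih G.card hlt G rfl hne fun i hi => h0 i (hG.1 hi))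
        refine HasDat.mono ?_ (h2 k σ ι R L0 L m F (SL L m F) hF hm h0 hG)
        refine Set.union_subset (Set.Subset.refl _) ?_
        rintro q rfl
        exact ⟨F, hF, ClIn.self L F, hc, rfl⟩
      · -- not connected
        unfold ConnS at hc
        push Not at hc
        obtain ⟨A, B, hA, hB, hAB, hF', hd⟩ := hc
        have hFe : F = A ∪ B := by
          ext i
          rw [Finset.mem_union]
          exact hF' i
        have cA : ClIn L F A := cl_of_indep hF' h0 hd
        have cB : ClIn L F B := cl_of_indep (fun i => (hF' i).trans or_comm) h0 hd.symm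
        have hcard : A.card + B.card = n := by
          rw [← hn, hFe, Finset.card_union_of_disjoint hAB]
        have hAp := Finset.card_pos.2 hA
        have hBp := Finset.card_pos.2 hB
        have iA := ih A.card (by omega) A rfl hA fun i hi => h0 i (cA.1 hi)
        have iB := ih B.card (by omega) B rfl hB fun i hi => h0 i (cB.1 hi)
        have := hp k σ ι R L0 L m A B (SL L m A) (SL L m B) hAB hd iA iB
        rw [← hFe] at this
        exact HasDat.mono (Set.union_subset (SL_mono cA) (SL_mono cB)) this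
  intro F hF h0
  exact key F.card F rfl hF h0

end Pool.Agent.NDM.H13
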