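import Pool.Agent.Helper78_NDM.Stmts

/-! # NDM, module SWP (helper13): exchange of the order of the fibrations. -/

set_option autoImplicit false
set_option linter.unusedVariables false
set_option linter.unusedSectionVars false

namespace Pool.Agent.NDM.H13

open PowerSeries Finset Pool.Agent.Helper6_Mono Pool.Agent.Helper32_OMP Pool.Agent.NDM

/-- the indices above `M₁` -/
def Df (σ : Type) (M₁ M : ℕ) : Set (σ × ℕ) := {p | M₁ < p.2 ∧ p.2 ≤ M}

section card

variable {σ : Type} [Fintype σ]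

theorem Df_finite (M₁ M : ℕ) : (Df σ M₁ M).Finite := by
  refine Set.Finite.subset (Set.Finite.prod (Set.finite_univ (α := σ)) (Set.finite_Iic M)) ?_
  rintro ⟨l, b⟩ h
  exact ⟨Set.mem_univ _, h.2⟩

theorem Df_ncard (M₁ M : ℕ) : (Df σ M₁ M).ncard = Fintype.card σ * (M - M₁) := by
  have h1 : Df σ M₁ M = ((Finset.univ : Finset σ) ×ˢ Finset.Ioc M₁ M : Finset (σ × ℕ)) := by
    ext p
    simp [Df]
  rw [h1, Set.ncard_coe_finset, Finset.card_product, Nat.card_Ioc, Finset.card_univ]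

end card

section series

variable {k : Type} [Field k] {σ ι : Type} [Fintype σ] {S : Type} [CommRing S] [Algebra k S]

/-- coefficients up to `M₁` -/
noncomputable def lo (M₁ : ℕ) (p : S⟦X⟧) : S⟦X⟧ := PowerSeries.mk fun j => if j ≤ M₁ then coeff j p else 0

/-- coefficients above `M₁` -/
noncomputable def hi (M₁ : ℕ) (p : S⟦X⟧) : S⟦X⟧ := PowerSeries.mk fun j => if M₁ < j then coeff j p else 0

theorem coeff_lo (M₁ : ℕ) (p : S⟦X⟧) (j : ℕ) :
    coeff j (lo M₁ p) = if j ≤ M₁ then coeff j p else 0 := by rw [lo, coeff_mk]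

theorem coeff_hi (M₁ : ℕ) (p : S⟦X⟧) (j : ℕ) :
    coeff j (hi M₁ p) = if M₁ < j then coeff j p else 0 := by rw [hi, coeff_mk]

theorem lo_add_hi (M₁ : ℕ) (p : S⟦X⟧) : lo M₁ p + hi M₁ p = p := by
  ext j
  rw [map_add, coeff_lo, coeff_hi]
  by_cases h : j ≤ M₁
  · rw [if_pos h, if_neg (by omega), add_zero]
  · rw [if_neg h, if_pos (by omega), zero_add]

/-- the coefficients up to `M₁` of the product only depend on those of the jets -/
theorem pp_congr (L : ι → σ → k) (m : ι → ℕ) (F : Finset ι) (M₁ : ℕ) (v a : σ → S⟦X⟧)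
    (h : ∀ l, ∀ j ≤ M₁, coeff j (v l) = coeff j (a l)) :
    ∀ j ≤ M₁, coeff j (pp L m F v) = coeff j (pp L m F a) := by
  let I : Ideal S⟦X⟧ := Ideal.span {(PowerSeries.X : S⟦X⟧) ^ (M₁ + 1)}
  have hm : ∀ p q : S⟦X⟧, Ideal.Quotient.mk I p = Ideal.Quotient.mk I q ↔
      ∀ j ≤ M₁, coeff j p = coeff j q := by
    intro p q
    rw [Ideal.Quotient.eq, Ideal.mem_span_singleton, PowerSeries.X_pow_dvd_iff]
    constructor
    · intro H j hj
      have := H j (by omega)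
      rwa [map_sub, sub_eq_zero] at this
    · intro H j hj
      rw [map_sub, sub_eq_zero]
      exact H j (by omega)
  refine (hm _ _).1 ?_
  have h1 : ∀ l, Ideal.Quotient.mk I (v l) = Ideal.Quotient.mk I (a l) := fun l =>
    (hm _ _).2 (h l)
  have h2 : ∀ i, Ideal.Quotient.mk I (lf (L i) v) = Ideal.Quotient.mk I (lf (L i) a) := by
    intro i
    unfold lf
    rw [map_sum, map_sum]
    refine Finset.sum_congr rfl fun l _ => ?_
    rw [Algebra.smul_def, Algebra.smul_def, map_mul, map_mul, h1 l]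
  show Ideal.Quotient.mk I (∏ i ∈ F, lf (L i) v ^ m i) = Ideal.Quotient.mk I (∏ i ∈ F, lf (L i) a ^ m i)
  rw [map_prod, map_prod]
  refine Finset.prod_congr rfl fun i _ => ?_
  rw [map_pow, map_pow, h2 i]

end series

section iso

variable {k : Type} [Field k] {σ ι : Type} [Fintype σ] {β : Type} {wβ : β → QZ}

/-- the equations of the two sides -/
theorem eqn_iff {S : Type} [CommRing S] [Algebra k S] (L : ι → σ → k) (m : ι → ℕ) (A : Finset ι)
    (M₁ : ℕ) (v a : σ → S⟦X⟧) (h : ∀ l, ∀ j ≤ M₁, coeff j (v l) = coeff j (a l)) (u g x : S)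
    (e : ℕ) :
    (((∀ j < M₁, coeff j (pp L m A v) = 0) ∧ IsUnit (coeff M₁ (pp L m A v))) ∧
      u * coeff M₁ (pp L m A v) * g * x ^ e = 1) ↔
    IsT M₁ (C (u * g * x ^ e) * pp L m A a) := by
  have hp := pp_congr L m A M₁ v a h
  constructor
  · rintro ⟨⟨h1, h2⟩, h3⟩ j hj
    rw [coeff_C_mul, ← hp j hj]
    rcases lt_or_eq_of_le hj with h4 | h4
    · rw [h1 j h4, mul_zero, if_neg (by omega)]
    · rw [if_pos h4, h4, ← h3]
      ring
  · intro H
    have H1 := H M₁ le_rfl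
    rw [coeff_C_mul, ← hp M₁ le_rfl, if_pos rfl] at H1
    refine ⟨⟨fun j hj => ?_, ?_⟩, ?_⟩
    · have H2 := H j hj.le
      rw [coeff_C_mul, ← hp j hj.le, if_neg (by omega)] at H2
      calc coeff j (pp L m A v)
          = (u * g * x ^ e * coeff M₁ (pp L m A v)) * coeff j (pp L m A v) := by rw [H1, one_mul]
        _ = coeff M₁ (pp L m A v) * (u * g * x ^ e * coeff j (pp L m A v)) := by ring
        _ = 0 := by rw [H2, mul_zero]
    · exact IsUnit.of_mul_eq_one (u * g * x ^ e) (by rw [mul_comm]; exact H1)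
    · rw [← H1]; ring

theorem swp_iso (L : ι → σ → k) (m : ι → ℕ) (A : Finset ι) (Y : Over k QZ β wβ) {wu : QZ}
    (u : NF Y.F wu) (M M₁ : ℕ) (ω θ : QZ) (hM : M₁ ≤ M) (P : GF k QZ) (g : NF P 0) (e : ℕ) (w : QZ)
    (h : (wu + ((∑ i ∈ A, m i) • θ + M₁ • ω)) + e • w = 0)
    (h' : (wu + e • w) + (∑ i ∈ A, m i) • θ + M₁ • ω = 0) :
    OIso (EE (YO L m A M M₁ ω θ Y) (uO L m A M M₁ ω θ Y u) P g e w h)
      ((JJ L m A M₁ ω θ ((Y.times P).times (GF.line k w)) (ugx Y u P g e w) h').times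
        (serGF k (Df σ M₁ M) (fun _ => θ) ω)) := by
  have hlo : ∀ {S : Type} [CommRing S] [Algebra k S] (v : σ → S⟦X⟧) (l : σ) (j : ℕ), j ≤ M₁ →
      coeff j (v l) = coeff j (lo M₁ (v l)) := by
    intro S _ _ v l j hj
    rw [coeff_lo, if_pos hj]
  refine OIso.mk' (fun S _ _ x =>
      (⟨(((x.1.1.1.1.1, x.1.1.2), x.1.2 ()), ⟨fun l => lo M₁ (x.1.1.1.1.2.1 l), ?_⟩), ?_⟩,
        ⟨fun l => hi M₁ (x.1.1.1.1.2.1 l), ?_⟩))
    (fun S _ _ y => ⟨((⟨(y.1.1.1.1.1, ⟨fun l => y.1.1.2.1 l + y.2.1 l, ?_⟩), ?_⟩, y.1.1.1.1.2),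
      fun _ => y.1.1.1.2), ?_⟩) ?_ ?_ ?_ ?_
  · intro l j hj
    rw [coeff_lo]
    split_ifs with h1
    · exact x.1.1.1.1.2.2 l j fun h2 => hj ⟨h2.1, h1⟩
    · rfl
  · have hx : u.fn x.1.1.1.1.1 * coeff M₁ (pp L m A x.1.1.1.1.2.1) * g.fn x.1.1.2 *
        ∏ i : Unit, x.1.2 i ^ e = 1 := x.2
    rw [Fintype.prod_unique] at hx
    exact (eqn_iff L m A M₁ x.1.1.1.1.2.1 (fun l => lo M₁ (x.1.1.1.1.2.1 l))
      (fun l j hj => hlo _ l j hj) _ _ _ _).1 ⟨x.1.1.1.2, hx⟩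
  · intro l j hj
    rw [coeff_hi]
    split_ifs with h1
    · refine x.1.1.1.1.2.2 l j fun h2 => hj ⟨h1, h2.2⟩
    · rfl
  · intro l j hj
    rw [map_add, y.1.1.2.2 l j fun h2 => hj ⟨h2.1, h2.2.trans hM⟩,
      y.2.2 l j fun h2 => hj ⟨by have := h2.1; show 1 ≤ j; omega, h2.2⟩, add_zero]
  · exact ((eqn_iff L m A M₁ (fun l => y.1.1.2.1 l + y.2.1 l) y.1.1.2.1
      (fun l j hj => by
        rw [map_add, y.2.2 l j fun h2 => by have := h2.1; omega, add_zero]) _ _ _ _).2 y.1.2).1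
  · show u.fn y.1.1.1.1.1 * coeff M₁ (pp L m A fun l => y.1.1.2.1 l + y.2.1 l) * g.fn y.1.1.1.1.2 *
        ∏ i : Unit, y.1.1.1.2 ^ e = 1
    rw [Fintype.prod_unique]
    exact ((eqn_iff L m A M₁ (fun l => y.1.1.2.1 l + y.2.1 l) y.1.1.2.1
      (fun l j hj => by
        rw [map_add, y.2.2 l j fun h2 => by have := h2.1; omega, add_zero]) _ _ _ _).2 y.1.2).2
  · intro S _ _ x
    refine Subtype.ext (Prod.ext (Prod.ext (Subtype.ext (Prod.ext rfl (Subtype.ext ?_))) rfl) rfl)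
    funext l
    exact lo_add_hi M₁ _
  · intro S _ _ y
    have h1 : ∀ l, lo M₁ (y.1.1.2.1 l + y.2.1 l) = y.1.1.2.1 l := by
      intro l
      ext j
      rw [coeff_lo, map_add]
      split_ifs with h2
      · rw [y.2.2 l j fun h3 => by have := h3.1; omega, add_zero]
      · rw [y.1.1.2.2 l j fun h3 => h2 h3.2]
    have h2 : ∀ l, hi M₁ (y.1.1.2.1 l + y.2.1 l) = y.2.1 l := by
      intro l
      ext j
      rw [coeff_hi, map_add]
      split_ifs with h3
      · rw [y.1.1.2.2 l j fun h4 => by have := h4.2; omega, zero_add]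
      · rw [y.2.2 l j fun h4 => h3 h4.1]
    refine Prod.ext (Subtype.ext (Prod.ext rfl (Subtype.ext ?_))) (Subtype.ext ?_)
    · funext l
      exact h1 l
    · funext l
      exact h2 l
  · intro S S' _ _ _ _ φ c x
    refine Prod.ext (Subtype.ext (Prod.ext rfl (Subtype.ext ?_))) (Subtype.ext ?_)
    · funext l
      show lo M₁ (C (chr c θ) * twS ω φ c (x.1.1.1.1.2.1 l)) =
        C (chr c θ) * twS ω φ c (lo M₁ (x.1.1.1.1.2.1 l))
      ext j
      rw [coeff_lo, coeff_C_mul, coeff_C_mul, coeff_twS, coeff_twS, coeff_lo]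
      split_ifs
      · rfl
      · rw [map_zero, mul_zero, mul_zero]
    · funext l
      show hi M₁ (C (chr c θ) * twS ω φ c (x.1.1.1.1.2.1 l)) =
        C (chr c θ) * twS ω φ c (hi M₁ (x.1.1.1.1.2.1 l))
      ext j
      rw [coeff_hi, coeff_C_mul, coeff_C_mul, coeff_twS, coeff_twS, coeff_hi]
      split_ifs
      · rfl
      · rw [map_zero, mul_zero, mul_zero]
  · intro S _ _ x b
    rfl

end iso

theorem swp : SwpStmt := by
  intro k _ σ ι _ β wβ R _ L0 χ L m A Y hY wu u M M₁ ω θ hM P hP g e w he h h'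
  rw [χ.iso (FT_EE (FT_YO L m A M M₁ ω θ hY) _ hP g e w h)
    (swp_iso L m A Y u M M₁ ω θ hM P g e w h h'),
    times_ser χ (FT_JJ L m A M₁ ω θ ((hY.prod hP).prod (FT.line w)) _ h') (Df_finite M₁ M),
    Df_ncard]

end Pool.Agent.NDM.H13
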